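import Pool.Agent.P8H6.Trip.Main

set_option autoImplicit false

/-!
# Almost every admissible set of eight shifts contains a prime triple pattern with the right order of magnitude

Let `18 M < 5 T`. For all `λ, ε > 0` there is `κ > 0` such that for all large `x` and EVERY `Y` between
`λ log x` and `x / 100`, all but at most `ε Y ^ T` of the admissible sets `H ⊆ {1, …, Y}` of `T` elements contain
a set `F` of `M + 1` elements all of whose subsets `G` with `k + 1` elements satisfy

`#{n ≤ x : n + g prime for all g ∈ G} ≥ κ x / (log x) ^ (k + 1)`.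

For `T = 8` and `M = k = 2` these are patterns of prime triples: almost every admissible set of eight shifts
contains one with at least `κ x / (log x) ^ 3` occurrences up to `x`, which is the order of magnitude in the
question. (The sets of multiples of `T!` are admissible, so the number of the admissible sets is at least a
constant times `Y ^ T`.)

Proof: a coloured Maynard-Tao theorem with `T` classes of `K` shifts and lower bounds of the right order of
magnitude for all `(k + 1)`-subsets of the classes hit (`Pool.Agent.N646.RG.sHITM2`, starting files), and a blow-up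
argument from the boxes of `T` times `K` shifts to the sets of `T` shifts (Jensen's inequality).
-/

namespace Pool.Agent.Results.MP_c0d11e_nt.AlmostEveryEightSet

open Finset Filter

/-- for every prime `p` there is `n` such that no `n + h`, `h ∈ H`, is divisible by `p` -/
def Admissible (H : Finset ℕ) : Prop := ∀ p : ℕ, p.Prime → ∃ n : ℤ, ∀ h ∈ H, ¬ (p : ℤ) ∣ n + h

/-- the number of the `1 ≤ n ≤ x` for which all `n + g`, `g ∈ G`, are prime -/
def occurrences (x : ℕ) (G : Finset ℕ) : ℕ :=
  ((Icc 1 x).filter (fun n : ℕ => ∀ g ∈ G, (n + g).Prime)).card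

/-- `H` contains a set `F` of `M + 1` elements, all of whose subsets with `k + 1` elements have at least
`κ x / (log x) ^ (k + 1)` occurrences up to `x` -/
def HasRichSubset (k M : ℕ) (κ : ℝ) (x : ℕ) (H : Finset ℕ) : Prop :=
  ∃ F ⊆ H, F.card = M + 1 ∧ ∀ G ⊆ F, G.card = k + 1 →
    κ * (x / Real.log x ^ (k + 1)) ≤ (occurrences x G : ℝ)

theorem result (k T M : ℕ) (hTM : 18 * M < 5 * T) (lam ε : ℝ) (hlam : 0 < lam) (hε : 0 < ε) :
    ∃ κ : ℝ, 0 < κ ∧ ∃ X : ℕ, ∀ x : ℕ, X ≤ x → ∀ Y : ℕ, lam * Real.log x ≤ Y → 100 * Y ≤ x →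
      ({H : Finset ℕ | H ⊆ Icc 1 Y ∧ H.card = T ∧ Admissible H ∧ ¬ HasRichSubset k M κ x H}.ncard : ℝ) ≤
        ε * (Y : ℝ) ^ T := by
  classical
  obtain ⟨κ, hκ, hev⟩ := Pool.Agent.P8H6.Trip.main k T M (by omega) (by
    have : (18 : ℝ) * M < 5 * T := by exact_mod_cast hTM
    linarith) lam ε hlam hε
  obtain ⟨X, hX⟩ := eventually_atTop.1 hev
  refine ⟨κ, hκ, X, fun x hx Y hY1 hY2 => (le_of_eq ?_).trans (hX x hx Y hY1 hY2)⟩
  rw [← Set.ncard_coe_finset, Nat.cast_inj]
  congr 1
  ext H
  rw [Set.mem_ofPred_eq, mem_coe, mem_filter, mem_powersetCard, and_assoc]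
  rfl

end Pool.Agent.Results.MP_c0d11e_nt.AlmostEveryEightSet
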