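import Pool.Agent.P8H13.DT.Avg
import Pool.Agent.N646.TT.Fin3

/-!
# Szemerédi's theorem, with small differences, in the prime triples `p, p + 2 d, p + 2 t` of one third of all `d`

`Tuples x d t` is the set of the primes `p ≤ x` for which `p + 2 d` and all `p + 2 t_i`, `i ≤ k`, are prime too (the case
`k = 1` concerns prime triples). For every scale `H` between `λ log x` and `x / 100` and for at least the proportion
`1/3 - ε` of the `d ≤ H` a positive proportion of the vectors `t ∈ [-H, H]^k` have the following property: `Tuples x d t`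
has at least `κ x / (log x) ^ (k + 2)` elements, and in EVERY subset `U` of `Tuples x d t` all but at most
`η |Tuples x d t|` of the elements are first terms of progressions of `m` elements of `U` with a difference
`≤ (log x) ^ B`. So every subset of positive proportion of the prime triples contains long narrow progressions of prime
triples, and almost every prime triple begins one.

Method: the relative Szemerédi theorem with small differences, uniformly in the linear forms (`Pool.Agent.Y840.PT` of the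
starting files, after Tao and Ziegler) in the form `Pool.Agent.P8H13.CA.one_U`, applied to the set of all elements of
`U` which are not first terms (`part1`, for ALL shifts, for example for the triples `p, p + 2, p + 6`); the theorem of
the starting files (`Pool.Agent.N646.TT.third_ext`) that one third of the even differences have a positive proportion of
extensions with the right order of magnitude; and the average of the singular series (`Pool.Agent.TH891.SG.CT_avg`,
starting files), by which few triples have a large singular series.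
-/

set_option autoImplicit false

namespace Pool.Agent.Results.MP_c0d11e_nt.DenseSubsetsOfTriples

open Finset

/-- the primes `p ≤ x` for which `p + 2 d` and all `p + 2 t_i` are (positive) primes -/
def Tuples {k : ℕ} (x d : ℕ) (t : Fin k → ℤ) : Set ℕ :=
  {p : ℕ | p ≤ x ∧ p.Prime ∧ (p + 2 * d).Prime ∧ ∀ i, ((p : ℤ) + 2 * t i).toNat.Prime}

/-- the first terms `a` of progressions `a, a + D, ..., a + (m - 1) D` in `U` with a difference `1 ≤ D ≤ Q` -/
def First (m : ℕ) (Q : ℝ) (U : Set ℕ) : Set ℕ :=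
  {a | a ∈ U ∧ ∃ D : ℕ, 1 ≤ D ∧ (D : ℝ) ≤ Q ∧ ∀ j < m, a + j * D ∈ U}

/-- `Tuples x d t` has the right order of magnitude, and almost all elements of every subset of positive proportion are
first terms of `m`-term progressions in the subset with a difference `≤ (log x) ^ B`. -/
def Szemeredi {k : ℕ} (κ η : ℝ) (m B x d : ℕ) (t : Fin k → ℤ) : Prop :=
  κ * (x / Real.log x ^ (k + 2)) ≤ ((Tuples x d t).ncard : ℝ) ∧
    ∀ U ⊆ Tuples x d t, ((U \ First m (Real.log x ^ B) U).ncard : ℝ) ≤ η * ((Tuples x d t).ncard : ℝ)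

open Classical in
/-- the number of the vectors `t` with `k` different coordinates in `[-H, H]`, none of them `0` or `d`, with the
property `Szemeredi κ η m B x d t` -/
noncomputable def extensions (k : ℕ) (κ η : ℝ) (m B x H d : ℕ) : ℕ :=
  ((Fintype.piFinset (fun _ : Fin k => Icc (-(H : ℤ)) H)).filter (fun t : Fin k → ℤ =>
    Function.Injective t ∧ (∀ i, t i ≠ 0 ∧ t i ≠ d) ∧ Szemeredi κ η m B x d t)).card

theorem tuples_finite {k : ℕ} (x d : ℕ) (t : Fin k → ℤ) : (Tuples x d t).Finite :=
  (Set.finite_le_nat x).subset fun _ hn => hn.1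

/-- the vector of the shifts -/
def av {k : ℕ} (d : ℕ) (t : Fin k → ℤ) : Fin (k + 1 + 1) → ℤ :=
  Fin.cons 0 (Fin.cons (2 * (d : ℤ)) (fun i => 2 * t i) : Fin (k + 1) → ℤ)

theorem av_inj {k : ℕ} {d : ℕ} (hd : 1 ≤ d) {t : Fin k → ℤ} (ht : Function.Injective t)
    (h0 : ∀ i, t i ≠ 0 ∧ t i ≠ d) : Function.Injective (av d t) := by
  unfold av
  rw [Fin.cons_injective_iff, Fin.cons_injective_iff]
  refine ⟨?_, ?_, ?_⟩
  · rintro ⟨i, hi⟩
    revert hi
    refine Fin.cases ?_ (fun i => ?_) i
    · simp only [Fin.cons_zero]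
      omega
    · simp only [Fin.cons_succ]
      have := (h0 i).1
      omega
  · rintro ⟨i, hi⟩
    have h1 : 2 * t i = 2 * (d : ℤ) := hi
    have := (h0 i).2
    omega
  · intro i j hij
    have h1 : 2 * t i = 2 * t j := hij
    exact ht (by omega)

/-- For ALL shifts: every set of prime tuples all of whose elements begin no `m`-term progression with a difference
`≤ (log x) ^ B` in it has at most `ρ (𝔖 + 1) x / (log x) ^ (k + 2)` elements, `𝔖` the singular series of the shifts. -/
theorem part1 (k m : ℕ) (ρ : ℝ) (hρ : 0 < ρ) : ∃ B x₀ : ℕ, ∀ x : ℕ, x₀ ≤ x → ∀ d : ℕ, 1 ≤ d → ∀ t : Fin k → ℤ,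
    Function.Injective t → (∀ i, t i ≠ 0 ∧ t i ≠ d) → ∀ U ⊆ Tuples x d t,
    ((U \ First m (Real.log x ^ B) U).ncard : ℝ) ≤
      ρ * ((Pool.Agent.H387R2.Uni.CT (Pool.Agent.P8H13.DT.sh (av d t)) + 1) * (x / Real.log x ^ (k + 2))) := by
  classical
  obtain ⟨B, x₀, h⟩ := Pool.Agent.P8H13.DT.tup (k + 1) (m + 1) ρ hρ
  refine ⟨B, x₀, fun x hx d hd t ht h0 U hU => ?_⟩
  have hfin : (U \ First m (Real.log x ^ B) U).Finite :=
    ((tuples_finite x d t).subset hU).subset Set.sdiff_subset
  obtain ⟨V, hV⟩ : ∃ V : Finset ℕ, V = hfin.toFinset := ⟨_, rfl⟩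
  have hVmem : ∀ n ∈ V, n ∈ U ∧ n ∉ First m (Real.log x ^ B) U := by
    intro n hn
    rw [hV, Set.Finite.mem_toFinset] at hn
    exact hn
  have hcard : (U \ First m (Real.log x ^ B) U).ncard = V.card := by
    rw [Set.ncard_eq_toFinset_card _ hfin, hV]
  rw [hcard]
  by_contra hlt
  rw [not_le] at hlt
  obtain ⟨b, D, hD1, hD2, hD3⟩ := h x hx (av d t) (av_inj hd ht h0) rfl V (by
    intro p hp
    obtain ⟨h1, h2, h3, h4⟩ := hU (hVmem p hp).1
    refine ⟨h1, fun i => ?_⟩
    unfold av
    refine Fin.cases ?_ (fun i => Fin.cases ?_ (fun i => ?_) i) i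
    · rw [Fin.cons_zero, add_zero, Int.toNat_natCast]
      exact h2
    · rw [Fin.cons_succ, Fin.cons_zero]
      have e : ((p : ℤ) + 2 * (d : ℤ)).toNat = p + 2 * d := by omega
      rw [e]
      exact h3
    · rw [Fin.cons_succ, Fin.cons_succ]
      exact h4 i) hlt
  have h5 := hD3 0 (by omega)
  rw [zero_mul, add_zero] at h5
  obtain ⟨h6, h7⟩ := hVmem b h5
  exact h7 ⟨h6, D, hD1, hD2, fun j hj => (hVmem _ (hD3 j (by omega))).1⟩

open Classical in
/-- For all `k ≥ 1` and `ε > 0` there is `c > 0` such that for all `λ > 0` there is `κ > 0` such that for all `m` and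
`η > 0` there are `B` and `X` with: for all `x ≥ X` and every `H` with `λ log x ≤ H` and `100 H ≤ x`, at least
`(1/3 - ε) H` of the integers `1 ≤ d ≤ H` have at least `c H ^ k` extensions `t` with the property `Szemeredi`. -/
theorem result (k : ℕ) (_hk : 1 ≤ k) (ε : ℝ) (hε : 0 < ε) : ∃ c : ℝ, 0 < c ∧ ∀ lam : ℝ, 0 < lam →
    ∃ κ : ℝ, 0 < κ ∧ ∀ (m : ℕ) (η : ℝ), 0 < η → ∃ B X : ℕ, ∀ x : ℕ, X ≤ x →
    ∀ H : ℕ, lam * Real.log x ≤ H → 100 * H ≤ x →
    (1 / 3 - ε) * (H : ℝ) ≤
      (((Icc 1 H).filter (fun d : ℕ => c * (H : ℝ) ^ k ≤ (extensions k κ η m B x H d : ℝ))).card : ℝ) := by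
  obtain ⟨c', hc', h⟩ := Pool.Agent.N646.TT.third_ext k (ε / 2) (by positivity)
  obtain ⟨C, hC, hbig⟩ := Pool.Agent.P8H13.DT.few_big (k + 1)
  obtain ⟨A, hA⟩ : ∃ A : ℝ, A = 4 * C * 2 ^ (k + 1) / (ε * c') := ⟨_, rfl⟩
  have hA0 : 0 < A := by rw [hA]; positivity
  refine ⟨c' / 2, by positivity, fun lam hlam => ?_⟩
  obtain ⟨κ, hκ, hev⟩ := h lam hlam
  refine ⟨κ, hκ, fun m η hη => ?_⟩
  obtain ⟨B, x₀, h1⟩ := part1 k m (η * κ / (A + 1)) (by positivity)
  obtain ⟨X, hX⟩ := Filter.eventually_atTop.1 hev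
  refine ⟨B, max (max X x₀) 3, fun x hx H hH hHx => ?_⟩
  have hxX : X ≤ x := (le_max_left _ _).trans ((le_max_left _ _).trans hx)
  have hx0 : x₀ ≤ x := (le_max_right _ _).trans ((le_max_left _ _).trans hx)
  have hx3 : 3 ≤ x := (le_max_right _ _).trans hx
  have hmain := hX x hxX H hH hHx
  have hlogx : 0 < Real.log x := Real.log_pos (by exact_mod_cast (by omega : 1 < x))
  have hHr : (0 : ℝ) < H := lt_of_lt_of_le (by positivity) hH
  have hH1 : 1 ≤ H := by exact_mod_cast hHr
  -- the extensions with a large singular series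
  obtain ⟨bg, hbg⟩ : ∃ bg : ℕ → Finset (Fin k → ℤ), bg = fun d => (Pool.Agent.N646.TT.exts k κ x H d).filter
    (fun t => A < Pool.Agent.H387R2.Uni.CT (Pool.Agent.P8H13.DT.sh (av d t))) := ⟨_, rfl⟩
  obtain ⟨Bd, hBd⟩ : ∃ Bd : Finset ℕ, Bd = (Icc 1 H).filter (fun d => c' / 2 * (H : ℝ) ^ k < ((bg d).card : ℝ)) :=
    ⟨_, rfl⟩
  have hBdc : (Bd.card : ℝ) ≤ ε / 2 * H := by
    have h2 : ∑ d ∈ Icc 1 H, ((bg d).card : ℝ) ≤ C / A * ((2 * H : ℕ) : ℝ) ^ (k + 1) := by
      have h3 := hbig A hA0 (2 * H) (by omega) ((Icc 1 H).biUnion (fun d => (bg d).image (av d))) (by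
        intro a ha
        obtain ⟨d, hd, ha2⟩ := mem_biUnion.1 ha
        obtain ⟨t, ht, rfl⟩ := mem_image.1 ha2
        rw [hbg] at ht
        obtain ⟨ht1, ht2⟩ := mem_filter.1 ht
        unfold Pool.Agent.N646.TT.exts at ht1
        rw [mem_filter, Fintype.mem_piFinset] at ht1
        obtain ⟨ht3, ht4, ht5, -⟩ := ht1
        have hd1 := mem_Icc.1 hd
        refine ⟨av_inj hd1.1 ht4 ht5, rfl, fun i => ?_, ht2⟩
        unfold av
        push_cast
        refine Fin.cases ?_ (fun i => Fin.cases ?_ (fun i => ?_) i) i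
        · rw [Fin.cons_zero, abs_zero]
          positivity
        · rw [Fin.cons_succ, Fin.cons_zero, abs_le]
          constructor <;> omega
        · rw [Fin.cons_succ, Fin.cons_succ, abs_le]
          have := mem_Icc.1 (ht3 i)
          constructor <;> omega)
      refine le_trans (le_of_eq ?_) h3
      rw [card_biUnion]
      · push_cast
        refine sum_congr rfl fun d _ => ?_
        rw [card_image_of_injOn]
        intro t _ t' _ htt
        have h4 : av d t = av d t' := htt
        funext i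
        have h5 := congrFun h4 i.succ.succ
        have h6 : 2 * t i = 2 * t' i := h5
        omega
      · intro d _ d' _ hdd
        rw [Function.onFun, disjoint_left]
        intro a ha ha'
        obtain ⟨t, -, rfl⟩ := mem_image.1 ha
        obtain ⟨t', -, htt⟩ := mem_image.1 ha'
        have h5 := congrFun htt 1
        have h6 : 2 * (d' : ℤ) = 2 * (d : ℤ) := h5
        exact hdd (by omega)
    have h3 : (Bd.card : ℝ) * (c' / 2 * (H : ℝ) ^ k) ≤ ∑ d ∈ Icc 1 H, ((bg d).card : ℝ) := by
      rw [← nsmul_eq_mul]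
      refine (card_nsmul_le_sum Bd (fun d => ((bg d).card : ℝ)) _ (fun d hd => ?_)).trans ?_
      · rw [hBd, mem_filter] at hd
        exact hd.2.le
      · rw [hBd]
        exact sum_le_sum_of_subset_of_nonneg (filter_subset _ _) fun _ _ _ => Nat.cast_nonneg _
    have h4 : (Bd.card : ℝ) * (c' / 2 * (H : ℝ) ^ k) ≤ ε / 2 * H * (c' / 2 * (H : ℝ) ^ k) := by
      refine (h3.trans h2).trans (le_of_eq ?_)
      rw [hA]
      push_cast
      rw [mul_pow, pow_succ (H : ℝ) k]
      field_simp
      ring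
    exact le_of_mul_le_mul_right h4 (by positivity)
  -- the conclusion
  have hsub : (Icc 1 H).filter (fun d : ℕ => c' * (H : ℝ) ^ k ≤ ((Pool.Agent.N646.TT.exts k κ x H d).card : ℝ)) ⊆
      ((Icc 1 H).filter (fun d : ℕ => c' / 2 * (H : ℝ) ^ k ≤ (extensions k κ η m B x H d : ℝ))) ∪ Bd := by
    intro d hd
    obtain ⟨hd1, hd2⟩ := mem_filter.1 hd
    rw [mem_union]
    by_cases hdB : d ∈ Bd
    · exact Or.inr hdB
    left
    rw [mem_filter]
    refine ⟨hd1, ?_⟩
    have hd3 : ((bg d).card : ℝ) ≤ c' / 2 * (H : ℝ) ^ k := by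
      rw [hBd, mem_filter] at hdB
      push Not at hdB
      exact hdB hd1
    have h2 : ((Pool.Agent.N646.TT.exts k κ x H d) \ bg d).card ≤ extensions k κ η m B x H d := by
      unfold extensions
      apply card_le_card
      intro t ht
      obtain ⟨ht1, ht2⟩ := mem_sdiff.1 ht
      have ht0 := ht1
      unfold Pool.Agent.N646.TT.exts at ht1
      rw [mem_filter] at ht1
      obtain ⟨ht3, ht4, ht5, ht6⟩ := ht1
      have hCT : Pool.Agent.H387R2.Uni.CT (Pool.Agent.P8H13.DT.sh (av d t)) ≤ A := by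
        rw [hbg, mem_filter] at ht2
        push Not at ht2
        exact ht2 ht0
      rw [mem_filter]
      have hcount : κ * (x / Real.log x ^ (k + 2)) ≤ ((Tuples x d t).ncard : ℝ) := by
        refine ht6.trans ?_
        rw [Nat.cast_le]
        unfold Pool.Agent.N646.TT.ptup
        rw [← Set.ncard_coe_finset]
        refine Set.ncard_le_ncard ?_ (tuples_finite x d t)
        intro p hp
        rw [mem_coe, mem_filter, mem_Icc] at hp
        exact ⟨hp.1.2, hp.2⟩
      refine ⟨ht3, ht4, ht5, hcount, fun U hU => ?_⟩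
      refine (h1 x hx0 d (mem_Icc.1 hd1).1 t ht4 ht5 U hU).trans ?_
      have hq : (0 : ℝ) ≤ (x : ℝ) / Real.log x ^ (k + 2) := by positivity
      calc η * κ / (A + 1) * ((Pool.Agent.H387R2.Uni.CT (Pool.Agent.P8H13.DT.sh (av d t)) + 1) *
            (x / Real.log x ^ (k + 2)))
          ≤ η * κ / (A + 1) * ((A + 1) * (x / Real.log x ^ (k + 2))) := by
            refine mul_le_mul_of_nonneg_left ?_ (by positivity)
            exact mul_le_mul_of_nonneg_right (by linarith) hq
        _ = η * (κ * (x / Real.log x ^ (k + 2))) := by field_simp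
        _ ≤ _ := mul_le_mul_of_nonneg_left hcount hη.le
    have h3 : (Pool.Agent.N646.TT.exts k κ x H d).card ≤ ((Pool.Agent.N646.TT.exts k κ x H d) \ bg d).card +
        (bg d).card := by
      exact card_le_card_sdiff_add_card
    have h4 : ((Pool.Agent.N646.TT.exts k κ x H d).card : ℝ) ≤ (extensions k κ η m B x H d : ℝ) +
        ((bg d).card : ℝ) := by exact_mod_cast h3.trans (Nat.add_le_add_right h2 _)
    linarith
  have h5 : (((Icc 1 H).filter (fun d : ℕ => c' * (H : ℝ) ^ k ≤
      ((Pool.Agent.N646.TT.exts k κ x H d).card : ℝ))).card : ℝ) ≤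
      (((Icc 1 H).filter (fun d : ℕ => c' / 2 * (H : ℝ) ^ k ≤ (extensions k κ η m B x H d : ℝ))).card : ℝ) +
        Bd.card := by exact_mod_cast (card_le_card hsub).trans (card_union_le _ _)
  linarith

end Pool.Agent.Results.MP_c0d11e_nt.DenseSubsetsOfTriples
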