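import Pool.Agent.P8H13.AD.ExtAll

/-!
# For almost all `k` one of `6 k, 12 k, 18 k` belongs to a positive proportion of prime triples

A set of shifts is called good if there are primes simultaneously at these shifts, for arbitrarily large `x` at least
`x / (log x) ^ C` times up to `x`, and even along arithmetic progressions of every length with differences
`≤ (log x) ^ C`; and every other combination of prime and composite values occurs too. We call `δ`-rich (for the
numbers `J`, `H`) a number `d` which has at least `δ H ^ J` extensions, that is vectors `(t_1, ..., t_J)`,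
`|t_s| ≤ H`, such that the shifts `0, d, t_1, ..., t_J` are good.

Let `m_0, ..., m_3` be four different numbers, `β` such that `β m_0, ..., β m_3` is admissible, and `J ≥ 0`.

1. There are `ℓ`, `L` and `δ > 0`, which depend only on `J` and the `m_i`, such that EVERY progression
`x, x + d, ..., x + (ℓ - 1) d` of positive integers contains a `k` for which, at every scale `H ≥ L β (x + d)`, one of
the six numbers `β (m_j - m_i) k` is `δ`-rich. (The `k` may depend on `H`.)
2. There is `δ > 0` such that for every `ε > 0` there is `L` such that in every interval `(u, u + T]` with `T ≥ L`, and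
for all `H ≥ L β (u + T)`, for all but `ε T` of the `k` in the interval one of the six numbers `β (m_j - m_i) k` is
`δ`-rich.

Case `J = 1`, `m = (0, 1, 2, 3)`, `β = 6`: for almost all `k`, one of `6 k`, `12 k`, `18 k` is a difference `d` for
which a positive proportion of the triples `{0, d, t}`, at every scale `|t| ≤ H`, are patterns of infinitely many prime
triples. Here a positive proportion is the right order. The question is about the patterns `{0, 2, 6}` and
`{0, 4, 6}`.

The same with a modulus: `n ≡ b (mod q)`, the shifts multiplied by `q`; `ℓ`, `L` and `δ` do not depend on `q`, `b`, `β`.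

Proof: if no `k` in a homothetic copy of a long interval has a rich number, there are four classes with `K` shifts
each, the shifts of two classes differing by `β (m_j - m_i) k` with such a `k`. Take `4 (J + 1)` copies of these four
classes, translated by multiples `≤ H` of a fixed number. The coloured Maynard-Tao theorem with all patterns along
narrow progressions (`Pool.Agent.Y827.HN.patR`, starting files) gives `4 (J + 1) + 1` of the classes, and one shift in
each, such that all the patterns occur; so two of the classes lie in the same copy and `J` others in `J` different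
other copies, and this gives an extension of one of the numbers `β (m_j - m_i) k`. Now count the translations. The
second part follows from the first by the density Hales-Jewett theorem (starting files).
-/

set_option autoImplicit false

namespace Pool.Agent.Results.MP_c0d11e_nt.ExtensionsOfDilates

open Finset Filter

/-- `n ≡ b` modulo `q`; of the numbers `n + d_0, ..., n + d_k` exactly those with index in `I` are prime; and
all primes at distance at most `R` from `n` are `≡ b` modulo `q` -/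
def Pattern (q : ℕ) (b : ℤ) (R : ℕ) {k : ℕ} (d : Fin (k + 1) → ℤ) (I : Finset (Fin (k + 1))) (n : ℕ) :
    Prop :=
  (n : ℤ) ≡ b [ZMOD q] ∧ (∀ i, ((n : ℤ) + d i).toNat.Prime ↔ i ∈ I) ∧
    ∀ p : ℕ, p.Prime → |(p : ℤ) - n| ≤ R → (p : ℤ) ≡ b [ZMOD q]

/-- For all `l` and `R` there is `C` such that for arbitrarily large `x` every `I ⊆ {0, ..., k}` has a difference
`1 ≤ D ≤ (log x)^C` for which at least `x / (log x)^C` of the `1 ≤ n ≤ x` are such that the pattern `I` of the shifts
`0, d_1, ..., d_k` occurs at all the numbers `n, n + D, ..., n + (l - 1) D`. -/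
def Good (q : ℕ) (b : ℤ) {k : ℕ} (d : Fin k → ℤ) : Prop :=
  ∀ l R : ℕ, ∃ C : ℕ, ∃ᶠ x : ℕ in atTop, ∀ I : Finset (Fin (k + 1)), ∃ D : ℕ, 1 ≤ D ∧
    (D : ℝ) ≤ (Real.log x) ^ C ∧ (x : ℝ) / (Real.log x) ^ C ≤
      ({n : ℕ | 1 ≤ n ∧ n ≤ x ∧ ∀ j < l,
        Pattern q b R (Fin.cons 0 d : Fin (k + 1) → ℤ) I (n + j * D)}.ncard : ℝ)

theorem good_of {q : ℕ} {b : ℤ} {k : ℕ} {d : Fin k → ℤ} (h : Pool.Agent.N694.NB.GoodN q b d) :
    Good q b d := by
  classical
  intro l R
  obtain ⟨C, hC⟩ := h l R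
  refine ⟨C, hC.mono fun x hx I => ?_⟩
  obtain ⟨D, h1, h2, h3⟩ := hx I
  refine ⟨D, h1, h2, h3.trans (le_of_eq ?_)⟩
  unfold Pool.Agent.N694.NB.cn
  rw [← Set.ncard_coe_finset]
  congr 2
  ext n
  rw [mem_coe, mem_filter, mem_Icc, Set.mem_ofPred_eq, and_assoc]
  rfl

/-- The extensions of `d`: the vectors of `J` integers `t_1, ..., t_J`, `|t_s| ≤ H`, for which the shifts
`0, q d, q t_1, ..., q t_J` are good. -/
def Extensions (q : ℕ) (b : ℤ) (J H : ℕ) (d : ℤ) : Set (Fin J → ℤ) :=
  {t | (∀ s, |t s| ≤ H) ∧ Good q b (fun j : Fin (J + 1) => (q : ℤ) * (Fin.cons d t : Fin (J + 1) → ℤ) j)}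

/-- One of the numbers `β (m_j - m_i) k`, `m_i < m_j`, has at least `δ H ^ J` extensions. -/
def Rich (m : Fin 4 → ℕ) (q : ℕ) (b : ℤ) (β J H : ℕ) (δ : ℝ) (k : ℕ) : Prop :=
  ∃ i j, m i < m j ∧ δ * (H : ℝ) ^ J ≤ ((Extensions q b J H (β * (m j - m i) * k)).ncard : ℝ)

theorem rich_of {m : Fin 4 → ℕ} {q : ℕ} {b : ℤ} {β J H : ℕ} {δ : ℝ} {k : ℕ}
    (h : Pool.Agent.P8H13.AD.ExtGood m q b β J H δ k) : Rich m q b β J H δ k := by
  obtain ⟨i, j, hij, h1⟩ := h
  have h2 : (((β * ((m j - m i) * k) : ℕ)) : ℤ) = β * (m j - m i) * k := by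
    push_cast [Nat.cast_sub hij.le]
    ring
  rw [h2] at h1
  refine ⟨i, j, hij, h1.trans ?_⟩
  rw [Nat.cast_le]
  refine Set.ncard_le_ncard ?_ ?_
  · rintro t ⟨h3, h4⟩
    exact ⟨h3, good_of h4⟩
  · classical
    refine (Fintype.piFinset (fun _ : Fin J => Icc (-(H : ℤ)) H)).finite_toSet.subset ?_
    intro t ht
    rw [mem_coe, Fintype.mem_piFinset]
    intro s
    rw [mem_Icc]
    exact abs_le.1 (ht.1 s)

theorem result (m : Fin 4 → ℕ) (hm : Function.Injective m) (J : ℕ) :
    (∃ (ℓ L : ℕ) (δ : ℝ), 0 < δ ∧ ∀ (q : ℕ) (b : ℤ), 1 ≤ q → IsCoprime (q : ℤ) b → ∀ β : ℕ, 1 ≤ β →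
      (∀ p : ℕ, p.Prime → ¬ p ∣ q → ∃ r : ℤ, ∀ i, ¬ (p : ℤ) ∣ β * m i + r) →
      ∀ x d : ℕ, 1 ≤ x → 1 ≤ d → ∀ H : ℕ, L * (β * (x + d)) ≤ H →
        ∃ t < ℓ, Rich m q b β J H δ (x + t * d)) ∧
    ∃ δ : ℝ, 0 < δ ∧ ∀ ε : ℝ, 0 < ε → ∃ L : ℕ,
      ∀ (q : ℕ) (b : ℤ), 1 ≤ q → IsCoprime (q : ℤ) b → ∀ β : ℕ, 1 ≤ β →
      (∀ p : ℕ, p.Prime → ¬ p ∣ q → ∃ r : ℤ, ∀ i, ¬ (p : ℤ) ∣ β * m i + r) →
      ∀ u T : ℕ, L ≤ T → ∀ H : ℕ, L * (β * (u + T)) ≤ H →
        (1 - ε) * (T : ℝ) ≤ ({k : ℕ | u < k ∧ k ≤ u + T ∧ Rich m q b β J H δ k}.ncard : ℝ) := by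
  classical
  constructor
  · obtain ⟨ℓ, L, δ, hδ, h⟩ := Pool.Agent.P8H13.AD.extAP m hm J
    refine ⟨ℓ, L, δ, hδ, fun q b hq hb β hβ hadm x d hx hd H hH => ?_⟩
    obtain ⟨t, ht, h1⟩ := h q b hq hb β hβ hadm x d hx hd H hH
    exact ⟨t, ht, rich_of h1⟩
  · obtain ⟨δ, hδ, h⟩ := Pool.Agent.P8H13.AD.extAll m hm J
    refine ⟨δ, hδ, fun ε hε => ?_⟩
    obtain ⟨L, hL⟩ := h ε hε
    refine ⟨L, fun q b hq hb β hβ hadm u T hT H hH => (hL q b hq hb β hβ hadm u T hT H hH).trans ?_⟩
    rw [← Set.ncard_coe_finset, Nat.cast_le]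
    refine Set.ncard_le_ncard ?_ ?_
    · intro k hk
      rw [mem_coe, mem_filter, mem_Ioc] at hk
      exact ⟨hk.1.1, hk.1.2, rich_of hk.2⟩
    · exact (Finset.Ioc u (u + T)).finite_toSet.subset fun k hk => by
        rw [mem_coe, mem_Ioc]
        exact ⟨hk.1, hk.2.1⟩

end Pool.Agent.Results.MP_c0d11e_nt.ExtensionsOfDilates
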