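import Pool.Agent.P8H13.AD.Gen

/-!
# Prime triples in almost every member of a two-parameter family of eight shifts

Let `e_1, ..., e_T` be integer vectors of length `k`, any `k + 1` of which are affinely independent, `M ≥ k` and
`18 M < 5 T`. An integer vector `κ` is exceptional if the `T` numbers `⟨e_g, κ⟩` are different and form an admissible
set and yet there are no `M + 1` of them any `k + 1` of which form a prime pattern, that is a set of shifts at which
there are primes simultaneously (for arbitrarily large `x`, at least `x / (log x) ^ C` times up to `x`, and even along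
arithmetic progressions of every length with differences `≤ (log x) ^ C`; every other combination of prime and
composite values occurs too).

1. There is a number `ℓ`, which depends only on `M` and the `e_g`, such that EVERY homothetic copy
`x + d {0, ..., ℓ - 1}^k` of the cube contains a vector which is not exceptional.
2. So (by the multidimensional Szemerédi theorem) the set of the exceptional vectors has upper Banach density `0`: for
every `ε > 0` there is `L` such that in every box of side `H ≥ L`, wherever it lies, at most `ε H ^ k` vectors are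
exceptional.

Case `k = 2`, `T = 8`, `M = 2`: for eight points `e_g` of the plane, no three on a line (for example the points
`(0,1), (0,2), (1,0), (1,3), (2,0), (2,3), (3,1), (3,2)`), and for all but `ε H ^ 2` of the pairs `(a, b)` in every box
of side `H ≥ L`, three of the eight numbers `i a + j b`, `(i, j)` one of the eight points, form the pattern of
infinitely many prime triples, unless the eight numbers are not different or not admissible (they are admissible if
`a` and `b` are divisible by `210`). The question is about the patterns `{0, 2, 6}` and `{0, 4, 6}`.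

The same with a modulus: `n ≡ b (mod q)`, the shifts multiplied by `q`; `ℓ` and `L` do not depend on `q` and `b`.

Proof: if all vectors of a homothetic copy of a large cube were exceptional, there would be a smaller copy on which the
good sets of indices are the same, and in it `T` classes of shifts, each with `K` elements, such that every choice of
`k + 1` classes and of one shift in each is a translate of the numbers `⟨e_g, κ⟩` for an exceptional `κ` (Cramer's
rule); but the coloured Maynard-Tao theorem with all patterns along narrow progressions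
(`Pool.Agent.Y827.HN.patR`, starting files) gives `M + 1` classes and one shift in each such that all the patterns
occur. The second part follows by the density Hales-Jewett theorem (starting files).
-/

set_option autoImplicit false

namespace Pool.Agent.Results.MP_c0d11e_nt.TwoParameterFamilies

open Finset Filter

/-- the scalar product of two integer vectors -/
def dot {k : ℕ} (a b : Fin k → ℤ) : ℤ := ∑ i, a i * b i

/-- any `k + 1` of the vectors `e g` are affinely independent: the determinant with the rows `(1, e g)` is not `0` -/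
def GeneralPosition {T k : ℕ} (e : Fin T → Fin k → ℤ) : Prop :=
  ∀ f : Fin (k + 1) → Fin T, Function.Injective f →
    (Matrix.of (fun a => (Fin.cons 1 (e (f a)) : Fin (k + 1) → ℤ))).det ≠ 0

/-- `n ≡ b` modulo `q`; of the numbers `n + d_0, ..., n + d_k` exactly those with index in `J` are prime; and
all primes at distance at most `R` from `n` are `≡ b` modulo `q` -/
def Pattern (q : ℕ) (b : ℤ) (R : ℕ) {k : ℕ} (d : Fin (k + 1) → ℤ) (J : Finset (Fin (k + 1))) (n : ℕ) :
    Prop :=
  (n : ℤ) ≡ b [ZMOD q] ∧ (∀ i, ((n : ℤ) + d i).toNat.Prime ↔ i ∈ J) ∧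
    ∀ p : ℕ, p.Prime → |(p : ℤ) - n| ≤ R → (p : ℤ) ≡ b [ZMOD q]

/-- For all `l` and `R` there is `C` such that for arbitrarily large `x` every `J ⊆ {0, ..., k}` has a difference
`1 ≤ D ≤ (log x)^C` for which at least `x / (log x)^C` of the `1 ≤ m ≤ x` are such that the pattern `J` of the shifts
`0, d_1, ..., d_k` occurs at all the numbers `m, m + D, ..., m + (l - 1) D`. -/
def Good (q : ℕ) (b : ℤ) {k : ℕ} (d : Fin k → ℤ) : Prop :=
  ∀ l R : ℕ, ∃ C : ℕ, ∃ᶠ x : ℕ in atTop, ∀ J : Finset (Fin (k + 1)), ∃ D : ℕ, 1 ≤ D ∧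
    (D : ℝ) ≤ (Real.log x) ^ C ∧ (x : ℝ) / (Real.log x) ^ C ≤
      ({m : ℕ | 1 ≤ m ∧ m ≤ x ∧ ∀ j < l,
        Pattern q b R (Fin.cons 0 d : Fin (k + 1) → ℤ) J (m + j * D)}.ncard : ℝ)

theorem good_of {q : ℕ} {b : ℤ} {k : ℕ} {d : Fin k → ℤ} (h : Pool.Agent.N694.NB.GoodN q b d) :
    Good q b d := by
  classical
  intro l R
  obtain ⟨C, hC⟩ := h l R
  refine ⟨C, hC.mono fun x hx J => ?_⟩
  obtain ⟨D, h1, h2, h3⟩ := hx J
  refine ⟨D, h1, h2, h3.trans (le_of_eq ?_)⟩
  unfold Pool.Agent.N694.NB.cn
  rw [← Set.ncard_coe_finset]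
  congr 2
  ext m
  rw [mem_coe, mem_filter, mem_Icc, Set.mem_ofPred_eq, and_assoc]
  rfl

/-- The vectors `κ` for which the numbers `⟨e_g, κ⟩` are different and, for every prime `p` not dividing `q`, miss a
class modulo `p`, and for which there are NO `M + 1` indices such that for any `k + 1` of them, `f_0, ..., f_k`, the
shifts `0, q ⟨e_(f_1) - e_(f_0), κ⟩, ..., q ⟨e_(f_k) - e_(f_0), κ⟩` are good. -/
def Exceptional {k T : ℕ} (M : ℕ) (e : Fin T → Fin k → ℤ) (q : ℕ) (b : ℤ) : Set (Fin k → ℤ) :=
  {κ | Function.Injective (fun g => dot (e g) κ) ∧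
    (∀ p : ℕ, p.Prime → ¬ p ∣ q → ∃ r : ℤ, ∀ g, ¬ (p : ℤ) ∣ dot (e g) κ + r) ∧
    ¬ ∃ S : Finset (Fin T), M + 1 ≤ S.card ∧ ∀ f : Fin (k + 1) → Fin T, Function.Injective f →
      (∀ i, f i ∈ S) → Good q b (fun j : Fin k => q * (dot (e (f j.succ)) κ - dot (e (f 0)) κ))}

theorem exc_of {k T M : ℕ} {e : Fin T → Fin k → ℤ} {q : ℕ} {b : ℤ} {κ : Fin k → ℤ}
    (h : κ ∈ Exceptional M e q b) : Pool.Agent.P8H13.AD.Exc M e q b κ := by
  obtain ⟨h2, h3, h4⟩ := h
  exact ⟨h2, h3, fun ⟨S, hS, h⟩ => h4 ⟨S, hS, fun f hf hfS => good_of (h f hf hfS)⟩⟩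

theorem result (k T M : ℕ) (hk : 1 ≤ k) (hkM : k ≤ M) (hTM : 18 * M < 5 * T)
    (e : Fin T → Fin k → ℤ) (he : GeneralPosition e) :
    (∃ ℓ : ℕ, ∀ (q : ℕ) (b : ℤ), 1 ≤ q → IsCoprime (q : ℤ) b → ∀ (x : Fin k → ℤ) (d : ℕ), 1 ≤ d →
      ∃ t : Fin k → ℕ, (∀ i, t i < ℓ) ∧ (fun i => x i + t i * d) ∉ Exceptional M e q b) ∧
    ∀ ε : ℝ, 0 < ε → ∃ L : ℕ, ∀ (q : ℕ) (b : ℤ), 1 ≤ q → IsCoprime (q : ℤ) b →
      ∀ (u : Fin k → ℤ) (H : ℕ), L ≤ H →
      (({κ ∈ Exceptional M e q b | ∀ i, u i < κ i ∧ κ i ≤ u i + H}).ncard : ℝ) ≤ ε * (H : ℝ) ^ k := by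
  classical
  have hTM' : (18 / 5 : ℝ) * M < T := by
    have h1 : (18 * M : ℝ) < 5 * T := by exact_mod_cast hTM
    linarith
  constructor
  · obtain ⟨ℓ, h⟩ := Pool.Agent.P8H13.AD.genCube k T M hk hkM hTM' e he
    refine ⟨ℓ, fun q b hq hb x d hd => ?_⟩
    obtain ⟨t, ht, h1⟩ := h q b hq hb x d hd
    exact ⟨t, ht, fun h2 => h1 (exc_of h2)⟩
  · intro ε hε
    obtain ⟨L, hL⟩ := Pool.Agent.P8H13.AD.gen k T M hk hkM hTM' e he ε hε
    refine ⟨L, fun q b hq hb u H hH => le_trans ?_ (hL q b hq hb u H hH)⟩
    rw [← Set.ncard_coe_finset, Nat.cast_le]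
    refine Set.ncard_le_ncard ?_ (Finset.finite_toSet _)
    rintro κ ⟨h1, h2⟩
    rw [mem_coe, mem_filter]
    refine ⟨?_, exc_of h1⟩
    unfold Pool.Agent.P8H13.AD.box
    rw [Fintype.mem_piFinset]
    intro i
    rw [mem_Ioc]
    exact h2 i

end Pool.Agent.Results.MP_c0d11e_nt.TwoParameterFamilies
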